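import Pool.Agent.K4H53.CX.Stm4

/-!
# The character side of the conductor-discriminant formula
-/

set_option autoImplicit false
set_option linter.all false

open NumberField Finset H300.HW IsCyclotomicExtension.Rat

namespace Pool.Agent.K4H11.CX

open Pool.Agent.K4H53.CX (hh)

section grp

variable {G : Type*} [Group G]

theorem idx (H U : Subgroup G) [U.Normal] :
    (H ⊔ U).index * Nat.card H = U.index * Nat.card (H ⊓ U : Subgroup G) := by
  have h1 : U.relIndex (H ⊔ U) * (H ⊔ U).index = U.index :=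
    Subgroup.relIndex_mul_index le_sup_right
  rw [Subgroup.relIndex_sup_right] at h1
  have h2 : (⊥ : Subgroup G).relIndex (H ⊓ U) * (H ⊓ U).relIndex H = (⊥ : Subgroup G).relIndex H :=
    Subgroup.relIndex_mul_relIndex _ _ _ bot_le inf_le_left
  rw [Subgroup.relIndex_bot_left, Subgroup.relIndex_bot_left, Subgroup.inf_relIndex_left] at h2
  rw [← h1, ← h2]
  ring

end grp

section

variable (n : ℕ) [NeZero n] (L : Type) [Field L] [NumberField L] [IsCyclotomicExtension {n} ℚ L]

/-- the automorphisms that are congruent to one modulo `d` -/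
noncomputable def UU {d : ℕ} (hd : d ∣ n) : Subgroup Gal(L/ℚ) :=
  ((ZMod.unitsMap hd).comp (galEquivZMod n L).toMonoidHom).ker

instance {d : ℕ} (hd : d ∣ n) : (UU n L hd).Normal := by
  unfold UU
  infer_instance

theorem mem_UU {d : ℕ} (hd : d ∣ n) (σ : Gal(L/ℚ)) :
    σ ∈ UU n L hd ↔ (galEquivZMod n L σ).val.val ≡ 1 [MOD d] := by
  have h1 : σ ∈ UU n L hd ↔ ZMod.unitsMap hd (galEquivZMod n L σ) = 1 := Iff.rfl
  rw [h1, Units.ext_iff, ZMod.unitsMap_val, ← ZMod.natCast_val, Units.val_one, ← Nat.cast_one,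
    ZMod.natCast_eq_natCast_iff]

theorem index_UU {d : ℕ} (hd : d ∣ n) : (UU n L hd).index = d.totient := by
  have hd0 : NeZero d := ⟨fun h => NeZero.ne n (Nat.eq_zero_of_zero_dvd (h ▸ hd))⟩
  unfold UU
  rw [Subgroup.index_ker, MonoidHom.range_eq_top.2, Nat.card_congr Subgroup.topEquiv.toEquiv,
    Nat.card_eq_fintype_card, ZMod.card_units_eq_totient]
  rw [MonoidHom.coe_comp]
  exact (ZMod.unitsMap_surjective hd).comp (galEquivZMod n L).surjective

theorem mem_sup {d : ℕ} (hd : d ∣ n) (F : IntermediateField ℚ L) (χ : DirichletCharacter ℂ n) :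
    χ ∈ (subgroupGalEquivSubgroupChar n L ℂ (F.fixingSubgroup ⊔ UU n L hd)).ofDual ↔
      χ ∈ YY n L F ∧ χ.conductor ∣ d := by
  rw [mem_subgroupGalEquivSubgroupChar_iff, mem_YY]
  set ψ : Gal(L/ℚ) →* ℂˣ := χ.toUnitHom.comp (galEquivZMod n L).toMonoidHom with hψ
  have h1 : ∀ σ : Gal(L/ℚ), χ (galEquivZMod n L σ) = 1 ↔ σ ∈ ψ.ker := by
    intro σ
    rw [MonoidHom.mem_ker, Units.ext_iff]
    rfl
  have h2 : ∀ K : Subgroup Gal(L/ℚ), (∀ σ ∈ K, χ (galEquivZMod n L σ) = 1) ↔ K ≤ ψ.ker := by
    intro K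
    constructor
    · intro h σ hσ
      exact (h1 σ).1 (h σ hσ)
    · intro h σ hσ
      exact (h1 σ).2 (h hσ)
  rw [h2, h2, sup_le_iff]
  refine and_congr_right fun _ => ?_
  rw [← χ.mem_conductorSet_iff_conductor_dvd hd, χ.mem_conductorSet_iff,
    DirichletCharacter.factorsThrough_iff_ker_unitsMap hd]
  constructor
  · intro h u hu
    obtain ⟨σ, rfl⟩ := (galEquivZMod n L).surjective u
    exact h (show σ ∈ UU n L hd from hu)
  · intro h σ hσ
    exact h (show galEquivZMod n L σ ∈ (ZMod.unitsMap hd).ker from hσ)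

theorem cnt {d : ℕ} (hd : d ∣ n) (F : IntermediateField ℚ L) :
    Nat.card {χ : YY n L F // (χ : DirichletCharacter ℂ n).conductor ∣ d} *
      Nat.card F.fixingSubgroup = d.totient * hh n L F d := by
  have : IsMulCommutative Gal(L/ℚ) :=
    ⟨⟨fun a b => (galEquivZMod n L).injective (by rw [map_mul, map_mul, mul_comm])⟩⟩
  have h1 : Nat.card {χ : YY n L F // (χ : DirichletCharacter ℂ n).conductor ∣ d} =
      (F.fixingSubgroup ⊔ UU n L hd).index := by
    rw [Subgroup.index, ← card_subgroupGalEquivSubgroupChar n L ℂ (F.fixingSubgroup ⊔ UU n L hd)]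
    refine Nat.card_congr ⟨fun χ => ⟨χ.1.1, (mem_sup n L hd F _).2 ⟨χ.1.2, χ.2⟩⟩,
      fun χ => ⟨⟨χ.1, ((mem_sup n L hd F _).1 χ.2).1⟩, ((mem_sup n L hd F _).1 χ.2).2⟩,
      fun χ => rfl, fun χ => rfl⟩
  rw [h1, idx, index_UU]
  congr 1
  unfold hh
  refine Nat.card_congr (Equiv.subtypeEquivRight fun σ => ?_)
  rw [Subgroup.mem_inf, mem_UU]

end

theorem val_count {p a m c : ℕ} (hp : p.Prime) (hpm : ¬ p ∣ m) (hm : m ≠ 0) (hc : c ∣ p ^ a * m) :
    c.factorization p + #{j ∈ range a | c ∣ p ^ j * m} = a := by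
  have hpa : p ^ a * m ≠ 0 := mul_ne_zero (pow_ne_zero _ hp.ne_zero) hm
  have hc0 : c ≠ 0 := fun h => hpa (Nat.eq_zero_of_zero_dvd (h ▸ hc))
  have hfm : m.factorization p = 0 := Nat.factorization_eq_zero_of_not_dvd hpm
  have hfj : ∀ j, (p ^ j * m).factorization p = j := by
    intro j
    rw [Nat.factorization_mul (pow_ne_zero _ hp.ne_zero) hm, Finsupp.add_apply, hfm,
      hp.factorization_pow, Finsupp.single_eq_same, add_zero]
  have hva : c.factorization p ≤ a := by
    have h := (Nat.factorization_le_iff_dvd hc0 hpa).2 hc p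
    rwa [hfj] at h
  have hiff : ∀ j, c ∣ p ^ j * m ↔ c.factorization p ≤ j := by
    intro j
    constructor
    · intro h
      have h1 := (Nat.factorization_le_iff_dvd hc0 (mul_ne_zero (pow_ne_zero j hp.ne_zero) hm)).2 h p
      rwa [hfj] at h1
    · intro h
      rw [← Nat.factorization_le_iff_dvd hc0 (mul_ne_zero (pow_ne_zero j hp.ne_zero) hm)]
      intro q
      rcases eq_or_ne q p with rfl | hq
      · rw [hfj]; exact h
      · have h1 := (Nat.factorization_le_iff_dvd hc0 hpa).2 hc q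
        have h2 : ∀ i, (p ^ i * m).factorization q = m.factorization q := by
          intro i
          rw [Nat.factorization_mul (pow_ne_zero _ hp.ne_zero) hm, Finsupp.add_apply,
            hp.factorization_pow, Finsupp.single_eq_of_ne hq, zero_add]
        rw [h2] at h1 ⊢
        exact h1
  have h3 : ({j ∈ range a | c ∣ p ^ j * m} : Finset ℕ) = Finset.Ico (c.factorization p) a := by
    ext j
    rw [Finset.mem_filter, Finset.mem_range, Finset.mem_Ico, hiff]
    tauto
  rw [h3, Nat.card_Ico]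
  omega

theorem s_charc : Pool.Agent.K4H53.CX.S_CHARC := by
  intro n _ L _ _ _ F p a m hp hpm hn
  classical
  have : Fintype (YY n L F) := Fintype.ofFinite _
  have hn0 : n ≠ 0 := NeZero.ne n
  have hm : m ≠ 0 := by
    rintro rfl
    exact hn0 (by rw [hn, mul_zero])
  have hco : ∀ j, (p ^ j).Coprime m := fun j =>
    Nat.Coprime.pow_left j ((Nat.Prime.coprime_iff_not_dvd hp).2 hpm)
  have hdj : ∀ j ∈ range a, p ^ j * m ∣ n := by
    intro j hj
    rw [hn]
    exact Nat.mul_dvd_mul_right (pow_dvd_pow p (Finset.mem_range.1 hj).le) m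
  rw [finsum_eq_sum_of_fintype]
  have h1 : ∑ χ : YY n L F, (χ : DirichletCharacter ℂ n).conductor.factorization p +
      ∑ j ∈ range a, Nat.card {χ : YY n L F // (χ : DirichletCharacter ℂ n).conductor ∣ p ^ j * m} =
        a * Nat.card (YY n L F) := by
    have h2 : ∑ j ∈ range a, Nat.card {χ : YY n L F //
        (χ : DirichletCharacter ℂ n).conductor ∣ p ^ j * m} =
          ∑ χ : YY n L F, #{j ∈ range a | (χ : DirichletCharacter ℂ n).conductor ∣ p ^ j * m} := by
      simp_rw [Nat.card_eq_fintype_card, Fintype.card_subtype, Finset.card_filter]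
      exact Finset.sum_comm
    rw [h2, ← Finset.sum_add_distrib, Finset.sum_congr rfl fun χ _ => val_count hp hpm hm
      (by rw [← hn]; exact (χ : DirichletCharacter ℂ n).conductor_dvd_level), Finset.sum_const,
      Finset.card_univ, smul_eq_mul, Nat.card_eq_fintype_card, mul_comm]
  have h3 : m.totient * ∑ j ∈ range a, (p ^ j).totient * hh n L F (p ^ j * m) =
      (∑ j ∈ range a, Nat.card {χ : YY n L F //
        (χ : DirichletCharacter ℂ n).conductor ∣ p ^ j * m}) * Nat.card F.fixingSubgroup := by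
    rw [Finset.sum_mul, Finset.mul_sum]
    refine Finset.sum_congr rfl fun j hj => ?_
    rw [cnt n L (hdj j hj) F, Nat.totient_mul (hco j)]
    ring
  rw [h3, ← add_mul, h1, mul_assoc, card_YY, Subgroup.index_mul_card,
    Nat.card_congr (galEquivZMod n L).toEquiv, Nat.card_eq_fintype_card, ZMod.card_units_eq_totient]

end Pool.Agent.K4H11.CX
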