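import Pool.Agent.K4H53.BSD.Sing
import Pool.Agent.Y76.GPar.Par

/-!
# The number of points of a nodal cubic modulo a prime
-/

set_option autoImplicit false
set_option linter.all false

open WeierstrassCurve WeierstrassCurve.Affine

namespace Pool.Agent.K4H11.CX

open Pool.Agent.Y702.G (pts)
open Pool.Agent.Y76.GPar (cb card_parity Pts)
open Pool.Agent.K4H53.BSD (Sg sing_ex b2_cast b4_cast b6_cast)

theorem two_case (W : WeierstrassCurve ℤ) (hΔ : (2 : ℤ) ∣ W.Δ) (hc : ¬ (2 : ℤ) ∣ W.c₄) :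
    Odd (((2 : ℕ) : ℤ) - pts W (ZMod 2)) := by
  have key : ∀ a1 a2 a3 a4 a6 : ZMod 2, 
      (-(a1 ^ 2 + 4 * a2) ^ 2 * (a1 ^ 2 * a6 + 4 * a2 * a6 - a1 * a3 * a4 + a2 * a3 ^ 2 - a4 ^ 2) -
        8 * (2 * a4 + a1 * a3) ^ 3 - 27 * (a3 ^ 2 + 4 * a6) ^ 2 +
        9 * (a1 ^ 2 + 4 * a2) * (2 * a4 + a1 * a3) * (a3 ^ 2 + 4 * a6)) = 0 →
      (a1 ^ 2 + 4 * a2) ^ 2 - 24 * (2 * a4 + a1 * a3) ≠ 0 →
      Odd (Fintype.card {P : ZMod 2 × ZMod 2 // P.2 ^ 2 + a1 * P.1 * P.2 + a3 * P.2 =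
        P.1 ^ 3 + a2 * P.1 ^ 2 + a4 * P.1 + a6}) := by decide
  have hcard : pts W (ZMod 2) = Fintype.card {P : ZMod 2 × ZMod 2 //
      P.2 ^ 2 + (W.a₁ : ZMod 2) * P.1 * P.2 + (W.a₃ : ZMod 2) * P.2 =
        P.1 ^ 3 + (W.a₂ : ZMod 2) * P.1 ^ 2 + (W.a₄ : ZMod 2) * P.1 + (W.a₆ : ZMod 2)} := by
    rw [← Nat.card_eq_fintype_card]
    apply Nat.card_congr
    apply Equiv.subtypeEquivRight
    intro P
    rw [Affine.equation_iff]
    exact Iff.rfl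
  have h := key (W.a₁ : ZMod 2) (W.a₂ : ZMod 2) (W.a₃ : ZMod 2) (W.a₄ : ZMod 2) (W.a₆ : ZMod 2)
    ?_ ?_
  · rw [← hcard] at h
    have h1 : Odd ((pts W (ZMod 2) : ℕ) : ℤ) := by exact_mod_cast h
    exact (by decide : Even ((2 : ℕ) : ℤ)).sub_odd h1
  · have h0 := (ZMod.intCast_zmod_eq_zero_iff_dvd _ 2).2 hΔ
    rw [← h0]
    unfold WeierstrassCurve.Δ WeierstrassCurve.b₈ WeierstrassCurve.b₂ WeierstrassCurve.b₄
      WeierstrassCurve.b₆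
    push_cast
    ring
  · intro h
    apply hc
    apply (ZMod.intCast_zmod_eq_zero_iff_dvd _ 2).1
    rw [← h]
    unfold WeierstrassCurve.c₄ WeierstrassCurve.b₂ WeierstrassCurve.b₄
    push_cast
    ring

theorem card_roots {k : Type} [Field k] [Finite k] (W : WeierstrassCurve ℤ) (h2 : (2 : k) ≠ 0)
    (hΔ : (W.Δ : k) = 0) (hc : (W.c₄ : k) ≠ 0) :
    Nat.card {x : k // cb ((W.a₁ : k) ^ 2 + 4 * (W.a₂ : k)) (8 * (2 * (W.a₄ : k) + (W.a₁ : k) * W.a₃))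
      (16 * ((W.a₃ : k) ^ 2 + 4 * W.a₆)) x = 0} = 2 := by
  obtain ⟨x, y, hS⟩ := sing_ex (W := W) hΔ
  obtain ⟨h1, hx, hy⟩ := hS
  set b : k := (W.a₁ : k) ^ 2 + 4 * W.a₂ with hb
  have e4 : 8 * (2 * (W.a₄ : k) + W.a₁ * W.a₃) = (4 * x) ^ 2 + 2 * (4 * x) * (-b - 2 * (4 * x)) := by
    rw [hb]
    linear_combination (-16) * hx + 8 * W.a₁ * hy
  have e6 : 16 * ((W.a₃ : k) ^ 2 + 4 * W.a₆) = - ((4 * x) ^ 2 * (-b - 2 * (4 * x))) := by
    rw [hb]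
    linear_combination (-64) * h1 + 16 * (2 * y + W.a₁ * x + W.a₃ - 2 * W.a₁ * x) * hy + 64 * x * hx
  have hne : 4 * x ≠ -b - 2 * (4 * x) := by
    intro h
    apply hc
    have : (W.c₄ : k) = b ^ 2 - 24 * (2 * W.a₄ + W.a₁ * W.a₃) := by
      unfold WeierstrassCurve.c₄ WeierstrassCurve.b₂ WeierstrassCurve.b₄
      push_cast
      rw [hb]
    rw [this]
    linear_combination (-3) * e4 + (b + 3 * (4 * x)) * h
  have hf : ∀ z : k, cb b (8 * (2 * (W.a₄ : k) + (W.a₁ : k) * W.a₃))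
      (16 * ((W.a₃ : k) ^ 2 + 4 * W.a₆)) z = 0 ↔ (z = 4 * x ∨ z = -b - 2 * (4 * x)) := by
    intro z
    have h3 : cb b (8 * (2 * (W.a₄ : k) + (W.a₁ : k) * W.a₃)) (16 * ((W.a₃ : k) ^ 2 + 4 * W.a₆)) z =
        (z - 4 * x) ^ 2 * (z - (-b - 2 * (4 * x))) := by
      unfold cb
      linear_combination z * e4 + e6
    rw [h3, mul_eq_zero, pow_eq_zero_iff two_ne_zero, sub_eq_zero, sub_eq_zero]
  have h5 : Nat.card {z : k // cb b (8 * (2 * (W.a₄ : k) + (W.a₁ : k) * W.a₃))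
      (16 * ((W.a₃ : k) ^ 2 + 4 * W.a₆)) z = 0} = Nat.card ({4 * x, -b - 2 * (4 * x)} : Set k) := by
    apply Nat.card_congr
    apply Equiv.subtypeEquivRight
    intro z
    rw [hf z]
    rfl
  rw [h5, Nat.card_coe_set_eq, Set.ncard_pair hne]

theorem s_node : ∀ (W : WeierstrassCurve ℤ) (p : ℕ), p.Prime → (p : ℤ) ∣ W.Δ → ¬ (p : ℤ) ∣ W.c₄ →
    Odd ((p : ℤ) - pts W (ZMod p)) := by
  intro W l hl hΔ hc
  rcases eq_or_ne l 2 with rfl | hne2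
  · exact two_case W hΔ hc
  have hF : Fact l.Prime := ⟨hl⟩
  have h2 : (2 : ZMod l) ≠ 0 := by
    intro h
    have h1 : ((2 : ℕ) : ZMod l) = 0 := by exact_mod_cast h
    rw [ZMod.natCast_eq_zero_iff] at h1
    exact hne2 ((Nat.prime_dvd_prime_iff_eq hl Nat.prime_two).1 h1)
  have h3 : pts W (ZMod l) = Nat.card (Pts (ZMod l) (W.a₁ : ZMod l) W.a₂ W.a₃ W.a₄ W.a₆) := by
    unfold Pool.Agent.Y702.G.pts
    refine Nat.card_congr (Equiv.subtypeEquivRight fun P => ?_)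
    rw [WeierstrassCurve.Affine.equation_iff]
    simp only [WeierstrassCurve.map_a₁, WeierstrassCurve.map_a₂, WeierstrassCurve.map_a₃,
      WeierstrassCurve.map_a₄, WeierstrassCurve.map_a₆, eq_intCast]
  have h4 := card_parity (F := ZMod l) (W.a₁ : ZMod l) W.a₂ W.a₃ W.a₄ W.a₆ h2
  rw [← h3, card_roots W h2 ((ZMod.intCast_zmod_eq_zero_iff_dvd _ l).2 hΔ)
    (fun h => hc ((ZMod.intCast_zmod_eq_zero_iff_dvd _ l).1 h))] at h4
  have h5 : Even (pts W (ZMod l)) := by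
    rw [Nat.even_iff]
    exact h4
  have h6 : Odd (l : ℤ) := by
    rw [Int.odd_coe_nat]
    exact hl.odd_of_ne_two hne2
  have h7 : Even ((pts W (ZMod l) : ℕ) : ℤ) := by exact_mod_cast h5
  exact h6.sub_even h7

end Pool.Agent.K4H11.CX
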